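import Pool.Agent.Y159.PF.Fixed

set_option autoImplicit false

/-!
# `l`-torsion in class groups: a mean value theorem for the fields of an equation `f(x) = t`

Let `n ≥ 3` and `l ≥ 3`.  For a monic integral polynomial `f` of degree `n` and an integer `t` such
that `f - t` is irreducible let `K_t` be a number field generated by a root `α_t` of `f(x) = t`.

* (A), uniform in `f`: if the coefficients satisfy `|a_i| ≤ H^(n-i)`, then the sum of
  `|Cl(K_t)[l]|` over any set of `|t| ≤ H^n` with discriminant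
  `|disc(f - t)| = |N(f'(α_t))| ≥ η H^(n(n-1))` (the full size) is at most
  `C H^(n + n(n-1)/2 - s + ε)`, `s = min((2n-3)/l, n/3)`, with `C` depending on `n, l, η, ε` only.
* (B), for every fixed `f`: the sum of `|Cl(K_t)[l]|` over `|t| ≤ N` is at most
  `C(f) N^(1 + (n-1)/2 - min((2-3/n)/l, 1/3) + ε)` (here `|disc(f - t)|` is about `|t|^(n-1)`).
-/

namespace Pool.Agent.Results.MP_695920_nt.PolynomialFamilies

open Polynomial NumberField

theorem result (n l : ℕ) (hn : 3 ≤ n) (hl : 3 ≤ l) (ε : ℝ) (hε : 0 < ε) :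
    (∀ η : ℝ, 0 < η → ∃ C : ℝ, ∀ H : ℕ, 1 ≤ H →
      ∀ f : ℤ[X], f.Monic → f.natDegree = n → (∀ i < n, |f.coeff i| ≤ (H : ℤ) ^ (n - i)) →
      ∀ (K : ℤ → Type) [∀ t, Field (K t)] [∀ t, NumberField (K t)] (α : ∀ t, K t) (S : Finset ℤ),
      (∀ t ∈ S, |t| ≤ (H : ℤ) ^ n ∧ Module.finrank ℚ (K t) = n ∧
        IntermediateField.adjoin ℚ {α t} = ⊤ ∧ aeval (α t) f = (t : K t) ∧
        η * (H : ℝ) ^ (n * (n - 1)) ≤
          |((Algebra.norm ℚ (aeval (α t) (derivative f)) : ℚ) : ℝ)|) →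
      ∑ t ∈ S, (Nat.card {c : ClassGroup (𝓞 (K t)) // c ^ l = 1} : ℝ) ≤
        C * (H : ℝ) ^ ((n : ℝ) + (n : ℝ) * ((n : ℝ) - 1) / 2 -
          min ((2 * (n : ℝ) - 3) / (l : ℝ)) ((n : ℝ) / 3) + ε)) ∧
    (∀ f : ℤ[X], f.Monic → f.natDegree = n → ∃ C : ℝ, ∀ N : ℕ, 1 ≤ N →
      ∀ (K : ℤ → Type) [∀ t, Field (K t)] [∀ t, NumberField (K t)] (α : ∀ t, K t) (S : Finset ℤ),
      (∀ t ∈ S, |t| ≤ (N : ℤ) ∧ Module.finrank ℚ (K t) = n ∧
        IntermediateField.adjoin ℚ {α t} = ⊤ ∧ aeval (α t) f = (t : K t)) →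
      ∑ t ∈ S, (Nat.card {c : ClassGroup (𝓞 (K t)) // c ^ l = 1} : ℝ) ≤
        C * (N : ℝ) ^ (1 + ((n : ℝ) - 1) / 2 -
          min ((2 - 3 / (n : ℝ)) / (l : ℝ)) (1 / 3) + ε)) := by
  refine ⟨?_, ?_⟩
  · intro η hη
    have hn0 : (0 : ℝ) < n := by
      have : 0 < n := by omega
      exact_mod_cast this
    obtain ⟨C, -, hC⟩ := Pool.Agent.Y159.PF.mean_value n l hn hl
      (η / ((n : ℝ) ^ 2 * 3 ^ n) ^ (n - 1)) (by positivity) ε hε
    refine ⟨C, ?_⟩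
    intro H hH f hf hfn hco K _ _ α S hS
    refine hC H hH f hf hfn hco K α S ?_
    intro t ht
    obtain ⟨h1, h2, h3, h4, h5⟩ := hS t ht
    exact ⟨h1, h2, h3, h4, fun w =>
      Pool.Agent.Y159.PF.der_of_norm (by omega) hf hfn hH hco h1 h2 h4 h5 w⟩
  · intro f hf hfn
    obtain ⟨C, -, hC⟩ := Pool.Agent.Y159.PF.mean_fixed n l hn hl ε hε f hf hfn
    refine ⟨C, ?_⟩
    intro N hN K _ _ α S hS
    have h := hC N hN K α S hS
    have e : ((n : ℝ) + 1) / 2 - min ((2 - 3 / (n : ℝ)) / (l : ℝ)) (1 / 3) + ε =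
        1 + ((n : ℝ) - 1) / 2 - min ((2 - 3 / (n : ℝ)) / (l : ℝ)) (1 / 3) + ε := by ring
    rwa [e] at h

end Pool.Agent.Results.MP_695920_nt.PolynomialFamilies
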