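import Pool.Agent.Y159.PT.Mom2

set_option autoImplicit false

/-!
# Moments of the torsion of the class groups of pure fields

Let `n ≥ 3` be odd, `l ≥ 1`, `r ≥ 0` and `ε > 0`. For squarefree `e ≤ N` let `K_e = ℚ(e^(1/n))`
(degree `n`). Then the sum of `|Cl(K_e)[l]| ^ r` over the squarefree `e ≤ N` is
`O(N^(1 + r (n-1) (1/2 - 3/(2 n l)) + ε) + N^(2/n + r (n-1) (1/2 - 1/(n l)) + ε))`; the
discriminant of `K_e` is at most a constant times `N^(n-1)`, so for
`r ≤ 2 l (n-2)/(n-1)` (in particular for `r = 1`) the torsion is at most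
`|disc|^(1/2 - 3/(2 n l) + ε)` in the mean of order `r`; for pure cubic fields this is
`|disc|^(1/2 - 1/(2 l) + ε)`.
-/

namespace Pool.Agent.Results.MP_695920_nt.PureFieldMoments

open NumberField Finset

theorem result (n l r : ℕ) (hn : 3 ≤ n) (hodd : Odd n) (hl : 1 ≤ l) (ε : ℝ) (hε : 0 < ε) :
    ∃ C : ℝ, 0 < C ∧ ∀ N : ℕ, 1 ≤ N →
    ∀ (K : ℕ → Type) [∀ e, Field (K e)] [∀ e, NumberField (K e)] (α : ∀ e, K e) (S : Finset ℕ),
    (∀ e ∈ S, Squarefree e ∧ e ≤ N ∧ Module.finrank ℚ (K e) = n ∧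
      IntermediateField.adjoin ℚ {α e} = ⊤ ∧ (α e) ^ n = (e : K e)) →
    ∑ e ∈ S, (Nat.card {c : ClassGroup (𝓞 (K e)) // c ^ l = 1} : ℝ) ^ r ≤
      C * ((N : ℝ) ^ (1 + r * (((n : ℝ) - 1) * (1 / 2 - 3 / (2 * n * l))) + ε) +
        (N : ℝ) ^ (2 / (n : ℝ) + r * (((n : ℝ) - 1) * (1 / 2 - 1 / (n * l))) + ε)) := by
  obtain ⟨C, hC0, hC⟩ := Pool.Agent.Y159.PT.moment_dyadic n l r hn hodd hl ε hε
  have hnr : (3 : ℝ) ≤ n := by exact_mod_cast hn
  have hlr : (1 : ℝ) ≤ l := by exact_mod_cast hl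
  have hr0 : (0 : ℝ) ≤ r := by positivity
  have e1 : 1 + r * (((n : ℝ) - 1) / 2 - 3 / 2 * ((1 - 1 / n) / l)) =
      1 + r * (((n : ℝ) - 1) * (1 / 2 - 3 / (2 * n * l))) := by
    field_simp
  have e2 : 2 / (n : ℝ) + r * (((n : ℝ) - 1) / 2 - (1 - 1 / n) / l) =
      2 / (n : ℝ) + r * (((n : ℝ) - 1) * (1 / 2 - 1 / (n * l))) := by
    field_simp
  rw [e1, e2] at hC
  set E1 : ℝ := 1 + r * (((n : ℝ) - 1) * (1 / 2 - 3 / (2 * n * l))) with hE1
  set E2 : ℝ := 2 / (n : ℝ) + r * (((n : ℝ) - 1) * (1 / 2 - 1 / (n * l))) with hE2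
  have hnl : (3 : ℝ) ≤ n * l := by nlinarith
  have h2n1 : 2 / (n : ℝ) ≤ 1 := by
    rw [div_le_one (by linarith)]; linarith
  have hE1' : 2 / (n : ℝ) ≤ E1 := by
    have h1 : 0 ≤ 1 / 2 - 3 / (2 * (n : ℝ) * l) := by
      rw [sub_nonneg, div_le_div_iff₀ (by positivity) (by norm_num)]
      nlinarith
    have h2 : 0 ≤ r * (((n : ℝ) - 1) * (1 / 2 - 3 / (2 * n * l))) :=
      mul_nonneg hr0 (mul_nonneg (by linarith) h1)
    linarith
  have hE2' : 2 / (n : ℝ) ≤ E2 := by
    have h1 : 0 ≤ 1 / 2 - 1 / ((n : ℝ) * l) := by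
      rw [sub_nonneg, div_le_div_iff₀ (by positivity) (by norm_num)]
      nlinarith
    have h2 : 0 ≤ r * (((n : ℝ) - 1) * (1 / 2 - 1 / (n * l))) :=
      mul_nonneg hr0 (mul_nonneg (by linarith) h1)
    linarith
  set q : ℝ := 2 ^ (-(2 / (n : ℝ))) with hq
  have hq0 : 0 < q := by positivity
  have hq1 : q < 1 := by
    apply Real.rpow_lt_one_of_one_lt_of_neg (by norm_num)
    have : 0 < 2 / (n : ℝ) := by positivity
    linarith
  refine ⟨C / (1 - q), div_pos hC0 (by linarith), ?_⟩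
  intro N
  induction N using Nat.strong_induction_on with
  | _ N ih =>
    intro hN K _ _ α S hS
    have hNr : (1 : ℝ) ≤ N := by exact_mod_cast hN
    have hN0 : (0 : ℝ) < N := by linarith
    set X : ℝ := (N : ℝ) ^ (E1 + ε) + (N : ℝ) ^ (E2 + ε) with hX
    have hX0 : 0 < X := by positivity
    have hsplit := Finset.sum_filter_add_sum_filter_not S (fun e => N < 2 * e)
      (fun e => (Nat.card {c : ClassGroup (𝓞 (K e)) // c ^ l = 1} : ℝ) ^ r)
    rw [← hsplit]
    have h1 : ∑ e ∈ S.filter (fun e => N < 2 * e),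
        (Nat.card {c : ClassGroup (𝓞 (K e)) // c ^ l = 1} : ℝ) ^ r ≤ C * X := by
      have h2 := hC N hN K α (S.filter (fun e => N < 2 * e)) (by
        intro e he
        rw [mem_filter] at he
        obtain ⟨h3, h4, h5⟩ := hS e he.1
        exact ⟨h3, he.2, h4, h5⟩)
      have h3 : (N : ℝ) ^ ε * ((N : ℝ) ^ E1 + (N : ℝ) ^ E2) = X := by
        rw [hX, Real.rpow_add hN0 E1 ε, Real.rpow_add hN0 E2 ε]; ring
      rwa [h3] at h2
    have h2 : ∑ e ∈ S.filter (fun e => ¬ N < 2 * e),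
        (Nat.card {c : ClassGroup (𝓞 (K e)) // c ^ l = 1} : ℝ) ^ r ≤
        C / (1 - q) * (q * X) := by
      rcases Nat.eq_zero_or_pos (N / 2) with h0 | h0
      · have h3 : S.filter (fun e => ¬ N < 2 * e) = ∅ := by
          rw [Finset.filter_eq_empty_iff]
          intro e he hcon
          have h4 := (hS e he).1.ne_zero
          omega
        rw [h3, Finset.sum_empty]
        have : 0 < 1 - q := by linarith
        positivity
      · have h3 := ih (N / 2) (by omega) h0 K α (S.filter (fun e => ¬ N < 2 * e)) (by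
          intro e he
          rw [mem_filter] at he
          obtain ⟨h3, h4, h5⟩ := hS e he.1
          exact ⟨h3, by omega, h5⟩)
        refine h3.trans ?_
        have hN2 : ((N / 2 : ℕ) : ℝ) ≤ (N : ℝ) / 2 := by
          have := Nat.cast_div_le (α := ℝ) (m := N) (n := 2)
          simpa using this
        have h4 : ∀ E : ℝ, 2 / (n : ℝ) ≤ E → ((N / 2 : ℕ) : ℝ) ^ E ≤ q * (N : ℝ) ^ E := by
          intro E hE
          have hE0 : 0 ≤ E := le_trans (by positivity) hE
          calc ((N / 2 : ℕ) : ℝ) ^ E ≤ ((N : ℝ) / 2) ^ E :=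
                Real.rpow_le_rpow (by positivity) hN2 hE0
            _ = 2 ^ (-E) * (N : ℝ) ^ E := by
                rw [Real.div_rpow hN0.le (by norm_num), Real.rpow_neg (by norm_num : (0:ℝ) ≤ 2)]
                field_simp
            _ ≤ q * (N : ℝ) ^ E := by
                have : (2 : ℝ) ^ (-E) ≤ q := by
                  rw [hq]
                  apply Real.rpow_le_rpow_of_exponent_le (by norm_num)
                  linarith
                gcongr
        have h5 := h4 (E1 + ε) (by linarith)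
        have h6 := h4 (E2 + ε) (by linarith)
        have h7 : 0 ≤ C / (1 - q) := (div_pos hC0 (by linarith)).le
        apply mul_le_mul_of_nonneg_left _ h7
        rw [hX]
        linarith
    have h3 : C * X + C / (1 - q) * (q * X) = C / (1 - q) * X := by
      have : 1 - q ≠ 0 := by linarith
      field_simp
      ring
    linarith

end Pool.Agent.Results.MP_695920_nt.PureFieldMoments
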