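import Pool.Agent.Y159.PT.Main

set_option autoImplicit false

/-!
# Torsion in the class groups of pure fields `ℚ(e^(1/n))`

Let `n ≥ 3` be odd and `ε > 0`. There is a constant `C` depending only on `n` and `ε` such that for
every `l ≥ 1`, every integer `e` not divisible by the `n`-th power of a prime and every number
field `K = ℚ(α)` of degree `n` with `α ^ n = e`,
`|Cl_K[l]| ≤ C * (|e|^(1/n) / rad e)^(1/l) * |disc K|^(1/2 + ε)`, where `rad e` is the product of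
the primes dividing `e`; if `e` is squarefree, then
`|Cl_K[l]| ≤ C * |disc K|^(1/2 - 1/(n l) + ε)`.
-/

namespace Pool.Agent.Results.MP_695920_nt.PureFields

open NumberField

theorem result (n : ℕ) (hn : 3 ≤ n) (hodd : Odd n) (ε : ℝ) (hε : 0 < ε) :
    ∃ C : ℝ, 0 < C ∧ ∀ l : ℕ, 1 ≤ l → ∀ e : ℤ, (∀ p : ℕ, p.Prime → ¬ ((p : ℤ) ^ n ∣ e)) →
    ∀ (K : Type) [Field K] [NumberField K], Module.finrank ℚ K = n → ∀ α : K,
    IntermediateField.adjoin ℚ {α} = ⊤ → α ^ n = (e : K) →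
    ((Nat.card {c : ClassGroup (𝓞 K) // c ^ l = 1} : ℝ) ≤
      C * (|(e : ℝ)| ^ (1 / (n : ℝ)) / ∏ p ∈ e.natAbs.primeFactors, (p : ℝ)) ^ (1 / (l : ℝ)) *
        |(discr K : ℝ)| ^ (1 / 2 + ε)) ∧
    (Squarefree e → (Nat.card {c : ClassGroup (𝓞 K) // c ^ l = 1} : ℝ) ≤
      C * |(discr K : ℝ)| ^ (1 / 2 - 1 / ((n : ℝ) * l) + ε)) := by
  obtain ⟨C, hC0, hC⟩ := Pool.Agent.Y159.PT.pure_torsion n hn hodd ε hε
  have hnr : (3 : ℝ) ≤ n := by exact_mod_cast hn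
  have h2n : (1 : ℝ) ≤ 2 ^ (n : ℝ) := Real.one_le_rpow (by norm_num) (by linarith)
  refine ⟨C * 2 ^ (n : ℝ), by positivity, ?_⟩
  intro l hl e he K _ _ hK α hα h0
  have hlr : (1 : ℝ) ≤ l := by exact_mod_cast hl
  have he0 : e ≠ 0 := by
    rintro rfl
    exact he 2 Nat.prime_two (dvd_zero _)
  have h1 := hC l hl e he K hK α hα h0
  set T : ℝ := (Nat.card {c : ClassGroup (𝓞 K) // c ^ l = 1} : ℝ) with hT
  have hDK : |(discr K : ℝ)| = ((discr K).natAbs : ℝ) := by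
    rw [Nat.cast_natAbs]
    push_cast
    rfl
  have hEe : |(e : ℝ)| = (e.natAbs : ℝ) := by
    rw [Nat.cast_natAbs]
    push_cast
    rfl
  have hR : (∏ p ∈ e.natAbs.primeFactors, (p : ℝ)) = (Pool.Agent.Y159.PT.rad e : ℝ) := by
    rw [Pool.Agent.Y159.PT.rad]
    push_cast
    rfl
  set D : ℝ := ((discr K).natAbs : ℝ) with hD
  have hD0 : 0 < D := by
    have h2 : (discr K).natAbs ≠ 0 := Int.natAbs_ne_zero.mpr (discr_ne_zero K)
    rw [hD]
    exact_mod_cast Nat.pos_of_ne_zero h2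
  set E : ℝ := (e.natAbs : ℝ) with hE
  have hE1n : 1 ≤ e.natAbs := Nat.one_le_iff_ne_zero.mpr (Int.natAbs_ne_zero.mpr he0)
  have hE1 : (1 : ℝ) ≤ E := by rw [hE]; exact_mod_cast hE1n
  have hE0 : 0 < E := by linarith
  have hEn0 : 0 < E ^ (1 / (n : ℝ)) := Real.rpow_pos_of_pos hE0 _
  set R : ℝ := (Pool.Agent.Y159.PT.rad e : ℝ) with hRdef
  have hR0 : 0 < R := by
    rw [hRdef]
    exact_mod_cast Pool.Agent.Y159.PT.rad_pos e
  have hκ0 : 0 < (R / E ^ (1 / (n : ℝ))) ^ (1 / (l : ℝ)) :=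
    Real.rpow_pos_of_pos (by positivity) _
  have hinv : (E ^ (1 / (n : ℝ)) / R) ^ (1 / (l : ℝ)) =
      ((R / E ^ (1 / (n : ℝ))) ^ (1 / (l : ℝ)))⁻¹ := by
    rw [← Real.inv_rpow (by positivity), inv_div]
  have hmain : T ≤ C * (E ^ (1 / (n : ℝ)) / R) ^ (1 / (l : ℝ)) * D ^ (1 / 2 + ε) := by
    rw [hinv]
    calc T = (T * (R / E ^ (1 / (n : ℝ))) ^ (1 / (l : ℝ))) *
          ((R / E ^ (1 / (n : ℝ))) ^ (1 / (l : ℝ)))⁻¹ := by field_simp
      _ ≤ (C * D ^ (1 / 2 + ε)) * ((R / E ^ (1 / (n : ℝ))) ^ (1 / (l : ℝ)))⁻¹ := by gcongr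
      _ = _ := by ring
  have hDε0 : 0 < D ^ (1 / 2 + ε) := Real.rpow_pos_of_pos hD0 _
  rw [hDK, hEe, hR]
  refine ⟨?_, ?_⟩
  · refine hmain.trans ?_
    have h3 : 0 ≤ (E ^ (1 / (n : ℝ)) / R) ^ (1 / (l : ℝ)) * D ^ (1 / 2 + ε) := by positivity
    calc C * (E ^ (1 / (n : ℝ)) / R) ^ (1 / (l : ℝ)) * D ^ (1 / 2 + ε)
        = C * ((E ^ (1 / (n : ℝ)) / R) ^ (1 / (l : ℝ)) * D ^ (1 / 2 + ε)) := by ring
      _ ≤ C * 2 ^ (n : ℝ) * ((E ^ (1 / (n : ℝ)) / R) ^ (1 / (l : ℝ)) * D ^ (1 / 2 + ε)) := by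
          have : C ≤ C * 2 ^ (n : ℝ) := le_mul_of_one_le_right hC0.le h2n
          gcongr
      _ = _ := by ring
  · intro hsq
    -- the radical is `|e|`
    have hRE : R = E := by
      rw [hRdef, hE, Pool.Agent.Y159.PT.rad,
        Nat.prod_primeFactors_of_squarefree (Int.squarefree_natAbs.mpr hsq)]
    -- the discriminant
    have hint : IsIntegral ℤ α := by
      refine IsIntegral.of_pow (show 0 < n by omega) ?_
      rw [h0]
      exact isIntegral_algebraMap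
    have hβn : (⟨α, hint⟩ : 𝓞 K) ^ n = (e : 𝓞 K) := by
      apply RingOfIntegers.ext
      push_cast
      exact h0
    have hdisc := Pool.Agent.TH847.LG.disc_bound hK ⟨α, hint⟩ hα
      (fun w => (Pool.Agent.Y159.PT.abs_root (by omega) hβn w).le)
    rw [hDK, ← hE] at hdisc
    have hn1 : ((n - 1 : ℕ) : ℝ) = (n : ℝ) - 1 := by
      rw [Nat.cast_sub (by omega)]; norm_num
    have h4 : (2 * E ^ (1 / (n : ℝ))) ^ (n * (n - 1)) =
        2 ^ ((n : ℝ) * ((n : ℝ) - 1)) * E ^ ((n : ℝ) - 1) := by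
      rw [mul_pow, ← Real.rpow_natCast (E ^ (1 / (n : ℝ))), ← Real.rpow_mul hE0.le,
        ← Real.rpow_natCast 2]
      push_cast
      rw [hn1]
      congr 2
      field_simp
    rw [h4] at hdisc
    have h5 : (E ^ (1 / (n : ℝ)) / R) ^ (1 / (l : ℝ)) ≤
        2 ^ (n : ℝ) * D ^ (-(1 / ((n : ℝ) * l))) := by
      have hnl : (0 : ℝ) < (n : ℝ) * l := by positivity
      have e1 : (E ^ (1 / (n : ℝ)) / R) ^ (1 / (l : ℝ)) = (E ^ ((n : ℝ) - 1)) ^ (-(1 / ((n : ℝ) * l))) := by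
        rw [hRE]
        have : E ^ (1 / (n : ℝ)) / E = E ^ (1 / (n : ℝ) - 1) := by
          rw [Real.rpow_sub hE0, Real.rpow_one]
        rw [this, ← Real.rpow_mul hE0.le, ← Real.rpow_mul hE0.le]
        congr 1
        field_simp
        ring
      have h6 : D * 2 ^ (-((n : ℝ) * ((n : ℝ) - 1))) ≤ E ^ ((n : ℝ) - 1) := by
        rw [Real.rpow_neg (by norm_num), ← div_eq_mul_inv, div_le_iff₀ (by positivity)]
        linarith
      have h7 : 0 < D * 2 ^ (-((n : ℝ) * ((n : ℝ) - 1))) := by positivity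
      rw [e1]
      calc (E ^ ((n : ℝ) - 1)) ^ (-(1 / ((n : ℝ) * l)))
          ≤ (D * 2 ^ (-((n : ℝ) * ((n : ℝ) - 1)))) ^ (-(1 / ((n : ℝ) * l))) := by
            apply Real.rpow_le_rpow_of_nonpos h7 h6
            have : 0 < 1 / ((n : ℝ) * l) := by positivity
            linarith
        _ = 2 ^ (((n : ℝ) - 1) / l) * D ^ (-(1 / ((n : ℝ) * l))) := by
            rw [Real.mul_rpow hD0.le (by positivity), ← Real.rpow_mul (by norm_num), mul_comm]
            congr 2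
            field_simp
        _ ≤ 2 ^ (n : ℝ) * D ^ (-(1 / ((n : ℝ) * l))) := by
            have h8 : ((n : ℝ) - 1) / l ≤ n := by
              rw [div_le_iff₀ (by linarith)]
              nlinarith
            have h9 : (2 : ℝ) ^ (((n : ℝ) - 1) / l) ≤ 2 ^ (n : ℝ) :=
              Real.rpow_le_rpow_of_exponent_le (by norm_num) h8
            have h10 : 0 < D ^ (-(1 / ((n : ℝ) * l))) := Real.rpow_pos_of_pos hD0 _
            gcongr
    calc T ≤ C * (E ^ (1 / (n : ℝ)) / R) ^ (1 / (l : ℝ)) * D ^ (1 / 2 + ε) := hmain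
      _ ≤ C * (2 ^ (n : ℝ) * D ^ (-(1 / ((n : ℝ) * l)))) * D ^ (1 / 2 + ε) := by gcongr
      _ = C * 2 ^ (n : ℝ) * D ^ (1 / 2 - 1 / ((n : ℝ) * l) + ε) := by
          have : (1 / 2 - 1 / ((n : ℝ) * l) + ε) = -(1 / ((n : ℝ) * l)) + (1 / 2 + ε) := by ring
          rw [this, Real.rpow_add hD0 (-(1 / ((n : ℝ) * l))) (1 / 2 + ε)]
          ring

end Pool.Agent.Results.MP_695920_nt.PureFields
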