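import Pool.Agent.Y159.PT.Small2

set_option autoImplicit false

/-!
# Small torsion in the class groups of pure fields `ℚ(e^(1/n))`

Let `n` be odd, `2 ≤ l ≤ n - 2` and `ε > 0`. There is a constant `C` such that for every squarefree
integer `e` and every number field `K = ℚ(α)` of degree `n` with `α ^ n = e`,
`|Cl_K[l]| ≤ C * |disc K|^(1/2 - (2 n - 2 - l)/(n (n - 1) l) + ε)`.
-/

namespace Pool.Agent.Results.MP_695920_nt.SmallTorsionPureFields

open NumberField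

theorem result (n l : ℕ) (hodd : Odd n) (hl : 2 ≤ l) (hln : l + 2 ≤ n) (ε : ℝ) (hε : 0 < ε) :
    ∃ C : ℝ, 0 < C ∧ ∀ e : ℤ, Squarefree e →
    ∀ (K : Type) [Field K] [NumberField K], Module.finrank ℚ K = n → ∀ α : K,
    IntermediateField.adjoin ℚ {α} = ⊤ → α ^ n = (e : K) →
    (Nat.card {c : ClassGroup (𝓞 K) // c ^ l = 1} : ℝ) ≤
      C * |(discr K : ℝ)| ^ (1 / 2 - (2 * n - 2 - l) / ((n : ℝ) * (n - 1) * l) + ε) := by
  obtain ⟨C, hC0, hC⟩ := Pool.Agent.Y159.PT.pure_small n l l (by omega) hodd (by omega) le_rfl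
    (by omega) ε hε
  have hnr : (4 : ℝ) ≤ n := by exact_mod_cast (by omega : 4 ≤ n)
  have hlr : (2 : ℝ) ≤ l := by exact_mod_cast hl
  have hlnr : (l : ℝ) + 2 ≤ n := by exact_mod_cast hln
  refine ⟨C * 2 ^ ((n : ℝ) * 2), by positivity, ?_⟩
  intro e hsq K _ _ hK α hα h0
  -- reduction to positive `e`
  obtain ⟨α', hα', h0'⟩ : ∃ α' : K, IntermediateField.adjoin ℚ {α'} = ⊤ ∧
      α' ^ n = ((e.natAbs : ℕ) : K) := by
    rcases Int.natAbs_eq e with h | h
    · refine ⟨α, hα, ?_⟩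
      have h9 : ((e : ℤ) : K) = (((e.natAbs : ℕ) : ℤ) : K) := congrArg Int.cast h
      rw [h0, h9, Int.cast_natCast]
    · refine ⟨-α, ?_, ?_⟩
      · rw [← hα]
        apply le_antisymm
        · rw [IntermediateField.adjoin_simple_le_iff]
          exact neg_mem (IntermediateField.mem_adjoin_simple_self ℚ α)
        · rw [IntermediateField.adjoin_simple_le_iff]
          have := neg_mem (IntermediateField.mem_adjoin_simple_self ℚ (-α))
          rwa [neg_neg] at this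
      · have h9 : ((e : ℤ) : K) = ((-((e.natAbs : ℕ) : ℤ) : ℤ) : K) := congrArg Int.cast h
        rw [hodd.neg_pow, h0, h9, Int.cast_neg, Int.cast_natCast, neg_neg]
  have hsq' : Squarefree e.natAbs := Int.squarefree_natAbs.mpr hsq
  have h1 := hC e.natAbs hsq' K hK α' hα' h0'
  set T : ℝ := (Nat.card {c : ClassGroup (𝓞 K) // c ^ l = 1} : ℝ) with hT
  have hT0 : 0 ≤ T := by positivity
  have hDK : |(discr K : ℝ)| = ((discr K).natAbs : ℝ) := by
    rw [Nat.cast_natAbs]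
    push_cast
    rfl
  rw [hDK]
  have hDle := Pool.Agent.Y159.PT.disc_le (by omega) hsq'.ne_zero le_rfl hK hα' h0'
  set D : ℝ := ((discr K).natAbs : ℝ) with hD
  have hD0 : 0 < D := by
    have h2 : (discr K).natAbs ≠ 0 := Int.natAbs_ne_zero.mpr (discr_ne_zero K)
    rw [hD]
    exact_mod_cast Nat.pos_of_ne_zero h2
  set E : ℝ := (e.natAbs : ℝ) with hE
  have hE1 : (1 : ℝ) ≤ E := by
    rw [hE]
    exact_mod_cast Nat.pos_of_ne_zero hsq'.ne_zero
  have hE0 : 0 < E := by linarith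
  set κ : ℝ := (2 * n - 2 - l) / ((n : ℝ) * (n - 1) * l) with hκ
  have hn1 : (0 : ℝ) < n - 1 := by linarith
  have hκ0 : 0 < κ := by
    rw [hκ]
    apply div_pos (by linarith)
    positivity
  have hκ1 : κ * (n - 1) ≤ 2 := by
    rw [hκ, div_mul_eq_mul_div, div_le_iff₀ (by positivity)]
    have h2 : (2 * n - 2 - l : ℝ) ≤ 2 * (n * l) := by nlinarith
    nlinarith
  have hexp : ((n : ℝ) - 1) * κ = (2 - ((l : ℝ) + 2) / n) / l := by
    rw [hκ]
    field_simp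
    ring
  have h2 : D ^ κ ≤ 2 ^ ((n : ℝ) * 2) * E ^ ((2 - ((l : ℝ) + 2) / n) / l) := by
    calc D ^ κ ≤ (2 ^ ((n : ℝ) * (n - 1)) * E ^ ((n : ℝ) - 1)) ^ κ :=
          Real.rpow_le_rpow hD0.le hDle hκ0.le
      _ = 2 ^ ((n : ℝ) * (κ * (n - 1))) * E ^ (((n : ℝ) - 1) * κ) := by
          rw [Real.mul_rpow (by positivity) (by positivity), ← Real.rpow_mul (by norm_num),
            ← Real.rpow_mul hE0.le]
          congr 2
          ring
      _ ≤ 2 ^ ((n : ℝ) * 2) * E ^ (((n : ℝ) - 1) * κ) := by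
          have h3 : (2 : ℝ) ^ ((n : ℝ) * (κ * (n - 1))) ≤ 2 ^ ((n : ℝ) * 2) :=
            Real.rpow_le_rpow_of_exponent_le (by norm_num) (by gcongr)
          gcongr
      _ = _ := by rw [hexp]
  have hDκ : 0 < D ^ κ := Real.rpow_pos_of_pos hD0 _
  have h3 : T * D ^ κ ≤ C * 2 ^ ((n : ℝ) * 2) * D ^ (1 / 2 + ε) := by
    calc T * D ^ κ ≤ T * (2 ^ ((n : ℝ) * 2) * E ^ ((2 - ((l : ℝ) + 2) / n) / l)) := by gcongr
      _ = 2 ^ ((n : ℝ) * 2) * (T * E ^ ((2 - ((l : ℝ) + 2) / n) / l)) := by ring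
      _ ≤ 2 ^ ((n : ℝ) * 2) * (C * D ^ (1 / 2 + ε)) := by gcongr
      _ = _ := by ring
  have h4 : D ^ (1 / 2 + ε) = D ^ (1 / 2 - κ + ε) * D ^ κ := by
    rw [← Real.rpow_add hD0]; congr 1; ring
  rw [h4, ← mul_assoc] at h3
  exact le_of_mul_le_mul_right h3 hDκ

end Pool.Agent.Results.MP_695920_nt.SmallTorsionPureFields
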